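import Pool.Agent.Helper60.L1Full.Stmts

/-! ASSIGN: the transfinite greedy choice. -/

namespace DualL1

open Cardinal

universe u

/-- greedy choice along a well-founded relation whose initial segments are small -/
theorem ASSIGN_greedy {P J : Type u} (r : P → P → Prop) (wf : WellFounded r)
    (L : P → Set J) (h : ∀ p, #{q // r q p} < #(L p)) :
    ∃ f : P → J, (∀ p, f p ∈ L p) ∧ ∀ p q, r q p → f q ≠ f p := by
  have key : ∀ (p : P) (g : {q // r q p} → J), ∃ x ∈ L p, x ∉ Set.range g := by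
    intro p g
    by_contra hcon
    push Not at hcon
    have h1 : L p ⊆ Set.range g := fun x hx => hcon x hx
    have h2 : #(L p) ≤ #(Set.range g) := Cardinal.mk_le_mk_of_subset h1
    exact absurd (h2.trans Cardinal.mk_range_le) (not_le.2 (h p))
  choose F hFL hFr using key
  set f : P → J := wf.fix (fun p ih => F p (fun q => ih q.1 q.2)) with hf
  have hfi : ∀ p, f p = F p (fun q : {q // r q p} => f q.1) := fun p => by
    rw [hf]
    exact wf.fix_eq _ p
  refine ⟨f, fun p => by rw [hfi]; exact hFL _ _, fun p q hqp hpq => ?_⟩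
  have h1 := hFr p (fun q : {q // r q p} => f q.1)
  rw [← hfi p] at h1
  exact h1 ⟨⟨q, hqp⟩, hpq⟩

/-- ASSIGN. -/
theorem st_ASSIGN : ST_ASSIGN.{u} := by
  intro J κ Q hκ hQ hN
  classical
  set P := Σ j, Q j with hP
  set N : J → Cardinal.{u} := fun j => #{i : J // κ j ≤ κ i} with hNdef
  have hNinf : ∀ j, ℵ₀ ≤ N j := fun j =>
    ((hκ j).trans (Cardinal.cantor (κ j)).le).trans (hN j)
  have hNanti : ∀ i j, κ i ≤ κ j → N j ≤ N i := by
    intro i j hij
    exact Cardinal.mk_le_mk_of_subset (s := {a | κ j ≤ κ a}) (t := {a | κ i ≤ κ a})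
      (fun a ha => hij.trans ha)
  -- counting
  have hcount : ∀ (D : Set P), (∀ p ∈ D, ∀ q : P, κ p.1 ≤ κ q.1 → N q.1 ≤ N p.1) →
      ∀ p₁ ∈ D, (∀ q ∈ D, κ p₁.1 ≤ κ q.1) → #D ≤ N p₁.1 := by
    intro D _ p₁ _ hmin
    have h1 : D ⊆ {q : P | κ p₁.1 ≤ κ q.1} := fun q hq => hmin q hq
    refine (Cardinal.mk_le_mk_of_subset h1).trans ?_
    -- the set is a sigma type over the upper set
    have h2 : #{q : P | κ p₁.1 ≤ κ q.1} ≤ #(Σ j : {j : J // κ p₁.1 ≤ κ j}, Q j.1) := by
      refine Cardinal.mk_le_of_injective (f := fun q => ⟨⟨q.1.1, q.2⟩, q.1.2⟩) ?_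
      rintro ⟨⟨a, b⟩, h⟩ ⟨⟨a', b'⟩, h'⟩ he
      simp only [Sigma.mk.injEq, Subtype.mk.injEq] at he
      obtain ⟨rfl, he⟩ := he
      simp only [heq_eq_eq] at he
      subst he
      rfl
    refine h2.trans ?_
    rw [Cardinal.mk_sigma]
    have h3 : ∀ j : {j : J // κ p₁.1 ≤ κ j}, #(Q j.1) ≤ N p₁.1 := fun j =>
      (hQ j.1).trans ((hN j.1).trans (hNanti _ _ j.2))
    calc Cardinal.sum (fun j : {j : J // κ p₁.1 ≤ κ j} => #(Q j.1))
        ≤ Cardinal.sum (fun _ : {j : J // κ p₁.1 ≤ κ j} => N p₁.1) :=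
          Cardinal.sum_le_sum _ _ h3
      _ = N p₁.1 * N p₁.1 := by rw [Cardinal.sum_const', hNdef]
      _ = N p₁.1 := Cardinal.mul_eq_self (hNinf _)
  have hmin : ∀ D : Set P, D.Nonempty → ∃ p₁ ∈ D, ∀ q ∈ D, κ p₁.1 ≤ κ q.1 := by
    intro D hD
    have wf : WellFounded (fun p q : P => κ p.1 < κ q.1) :=
      InvImage.wf (fun p : P => κ p.1) (wellFounded_lt (α := Cardinal.{u}))
    refine ⟨wf.min D hD, wf.min_mem D hD, fun q hq => ?_⟩
    exact not_lt.1 (wf.not_lt_min D hq)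
  -- classes of equal value are small
  have hcls : ∀ p : P, #{q : P | N q.1 ≤ N p.1} ≤ N p.1 := by
    intro p
    obtain ⟨p₁, hp₁, hm⟩ := hmin {q : P | N q.1 ≤ N p.1} ⟨p, le_refl (N p.1)⟩
    exact (hcount _ (fun _ _ q hq => hNanti _ _ hq) p₁ hp₁ hm).trans hp₁
  have hlow : ∀ p : P, #{q : P | N q.1 < N p.1} < N p.1 := by
    intro p
    rcases Set.eq_empty_or_nonempty {q : P | N q.1 < N p.1} with h | h
    · rw [h, Cardinal.mk_emptyCollection]
      exact lt_of_lt_of_le Cardinal.aleph0_pos (hNinf _)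
    · obtain ⟨p₁, hp₁, hm⟩ := hmin _ h
      exact lt_of_le_of_lt (hcount _ (fun _ _ q hq => hNanti _ _ hq) p₁ hp₁ hm) hp₁
  -- an enumeration of every class
  have henum : ∀ σ : Cardinal.{u}, (∃ p : P, N p.1 = σ) →
      ∃ e : {q : P | N q.1 = σ} → σ.ord.ToType, Function.Injective e := by
    rintro σ ⟨p, rfl⟩
    have h1 : #{q : P | N q.1 = N p.1} ≤ #(N p.1).ord.ToType := by
      rw [Cardinal.mk_toType, Cardinal.card_ord]
      exact (Cardinal.mk_le_mk_of_subset (s := {q : P | N q.1 = N p.1})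
        (t := {q : P | N q.1 ≤ N p.1}) (fun q hq => le_of_eq hq)).trans (hcls p)
    exact ⟨_, (Cardinal.le_def _ _).1 h1 |>.some.injective⟩
  choose e he using henum
  set E : P → Ordinal.{u} := fun p =>
    Ordinal.typein (fun a b : (N p.1).ord.ToType => a < b) (e (N p.1) ⟨p, rfl⟩ ⟨p, rfl⟩) with hE
  set r : P → P → Prop := fun q p => N q.1 < N p.1 ∨ (N q.1 = N p.1 ∧ E q < E p) with hr
  have hrwf : WellFounded r := by
    have h1 : WellFounded (Prod.Lex (fun a b : Cardinal.{u} => a < b)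
        (fun a b : Ordinal.{u} => a < b)) := WellFounded.prod_lex wellFounded_lt wellFounded_lt
    refine Subrelation.wf ?_ (InvImage.wf (fun p : P => (N p.1, E p)) h1)
    intro q p h
    rcases h with h | ⟨h1, h2⟩
    · exact Prod.Lex.left _ _ h
    · change Prod.Lex _ _ (N q.1, E q) (N p.1, E p)
      rw [h1]
      exact Prod.Lex.right _ h2
  have hsmall : ∀ p, #{q // r q p} < #({i : J | κ p.1 ≤ κ i} : Set J) := by
    intro p
    change _ < N p.1
    have h1 : {q | r q p} ⊆ {q : P | N q.1 < N p.1} ∪ {q : P | N q.1 = N p.1 ∧ E q < E p} := by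
      rintro q (h | h)
      · exact Or.inl h
      · exact Or.inr h
    refine lt_of_le_of_lt ((Cardinal.mk_le_mk_of_subset h1).trans (Cardinal.mk_union_le _ _)) ?_
    refine Cardinal.add_lt_of_lt (hNinf _) (hlow p) ?_
    have h2 : #{q : P | N q.1 = N p.1 ∧ E q < E p} ≤
        #{a : (N p.1).ord.ToType // a < e (N p.1) ⟨p, rfl⟩ ⟨p, rfl⟩} := by
      refine Cardinal.mk_le_of_injective (f := fun q => ⟨e (N p.1) ⟨p, rfl⟩ ⟨q.1, q.2.1⟩, ?_⟩) ?_
      · have h3 := q.2.2
        have h4 : ∀ (σ : Cardinal.{u}) (hσ : N q.1.1 = σ), E q.1 =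
            Ordinal.typein (fun a b : σ.ord.ToType => a < b) (e σ ⟨q.1, hσ⟩ ⟨q.1, hσ⟩) := by
          rintro σ rfl
          rfl
        rw [h4 _ q.2.1] at h3
        exact (Ordinal.typein_lt_typein (fun a b : (N p.1).ord.ToType => a < b)).1 h3
      · intro q q' h
        have h5 := he (N p.1) ⟨p, rfl⟩ (congrArg Subtype.val h)
        exact Subtype.ext (Subtype.mk.inj h5)
    refine lt_of_le_of_lt h2 ?_
    exact Cardinal.mk_Iio_ord_toType _
  obtain ⟨f, hf, hfr⟩ := ASSIGN_greedy r hrwf (fun p => {i : J | κ p.1 ≤ κ i}) hsmall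
  refine ⟨f, fun p q hpq => ?_, hf⟩
  by_contra hne
  have htri : r p q ∨ r q p := by
    rcases lt_trichotomy (N p.1) (N q.1) with h | h | h
    · exact Or.inl (Or.inl h)
    · rcases lt_trichotomy (E p) (E q) with h' | h' | h'
      · exact Or.inl (Or.inr ⟨h, h'⟩)
      · exfalso
        apply hne
        have h4 : ∀ (σ : Cardinal.{u}) (hσ : N p.1 = σ), E p =
            Ordinal.typein (fun a b : σ.ord.ToType => a < b) (e σ ⟨p, hσ⟩ ⟨p, hσ⟩) := by
          rintro σ rfl
          rfl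
        rw [h4 _ h] at h'
        have h6 := Ordinal.typein_injective (fun a b : (N q.1).ord.ToType => a < b) h'
        have h5 := he (N q.1) ⟨q, rfl⟩ h6
        exact congrArg Subtype.val h5
      · exact Or.inr (Or.inr ⟨h.symm, h'⟩)
    · exact Or.inr (Or.inl h)
  rcases htri with h | h
  · exact hfr q p h hpq
  · exact hfr p q h hpq.symm

end DualL1
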