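import Pool.Agent.Helper60.L1Full.Stmts

/-! CARD: `Cond` counts the pieces of a maximal family. -/

namespace DualL1

open MeasureTheory Cardinal
open scoped ENNReal

universe u v w

section
variable {Ω : Type u} [MeasurableSpace Ω] {μ : Measure Ω}

theorem CARD_gen_mono {𝒢 : Set (Set Ω)} {A C : Set Ω} (h : Generates μ 𝒢 A) (hC : C ⊆ A) :
    Generates μ 𝒢 C := by
  intro E hE hEm
  obtain ⟨G, hG, h0⟩ := h E (hE.trans hC) hEm
  refine ⟨G, hG, measure_mono_null ?_ h0⟩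
  rintro x (⟨h1, h2⟩ | ⟨h1, h2⟩)
  · exact Or.inl ⟨h1, fun h3 => h2 ⟨h3.1, hE h1⟩⟩
  · exact Or.inr ⟨⟨h1.1, hC h1.2⟩, h2⟩

theorem CARD_atom_gen {A : Set Ω} (h : IsAtomOf μ A) : Generates μ ∅ A := by
  intro E hE hEm
  rcases h.2.2 E hE hEm with h1 | h1
  · refine ⟨∅, @MeasurableSet.empty _ (MeasurableSpace.generateFrom ∅), ?_⟩
    rw [Set.empty_inter, ← Set.bot_eq_empty, symmDiff_bot]
    exact h1
  · refine ⟨Set.univ, @MeasurableSet.univ _ (MeasurableSpace.generateFrom ∅), ?_⟩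
    rw [Set.univ_inter]
    refine measure_mono_null ?_ h1
    rintro x (⟨h2, h3⟩ | h2)
    · exact absurd (hE h2) h3
    · exact h2

theorem CARD_thick_mono {κ κ' : Cardinal.{u}} {A : Set Ω} (h : Thick μ κ A) (hκ : κ' ≤ κ) :
    Thick μ κ' A :=
  ⟨h.1, h.2.1, h.2.2.1, fun B hB hm hp 𝒢 h𝒢 hc => h.2.2.2 B hB hm hp 𝒢 h𝒢 (hc.trans_le hκ)⟩

/-- the pieces of a maximal family -/
theorem CARD_piece {𝒟 : Set (Set Ω)} (h𝒟 : IsHFam μ 𝒟) {A : Set Ω} (hA : A ∈ 𝒟) :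
    MeasurableSet A ∧ 0 < μ A ∧ μ A ≠ ∞ := by
  rcases h𝒟.1 A hA with h | ⟨κ, _, h⟩
  · exact ⟨h.1.1, h.1.2.1, h.2⟩
  · exact ⟨h.1.1, h.1.2.1, h.1.2.2.1⟩

/-- a piece which meets a thick set is thick -/
theorem CARD_meet {𝒟 : Set (Set Ω)} (h𝒟 : IsHFam μ 𝒟) {A : Set Ω} (hA : A ∈ 𝒟)
    {κ : Cardinal.{u}} (hκ : ℵ₀ ≤ κ) {C : Set Ω} (hC : Thick μ κ C) (h : μ (A ∩ C) ≠ 0) :
    Thick μ κ A := by
  have hm : MeasurableSet (A ∩ C) := (CARD_piece h𝒟 hA).1.inter hC.1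
  have hp : 0 < μ (A ∩ C) := pos_iff_ne_zero.2 h
  rcases h𝒟.1 A hA with h1 | ⟨κ', _, h1⟩
  · exfalso
    refine hC.2.2.2 (A ∩ C) Set.inter_subset_right hm hp ∅ (fun G hG => absurd hG
      (Set.notMem_empty G)) ?_ (CARD_gen_mono (CARD_atom_gen h1.1) Set.inter_subset_left)
    rw [Cardinal.mk_emptyCollection]
    exact lt_of_lt_of_le Cardinal.aleph0_pos hκ
  · obtain ⟨𝒢, h𝒢, hc, hg⟩ := h1.2
    refine CARD_thick_mono h1.1 (le_trans ?_ hc)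
    by_contra hlt
    exact hC.2.2.2 (A ∩ C) Set.inter_subset_right hm hp 𝒢 h𝒢 (not_le.1 hlt)
      (CARD_gen_mono hg Set.inter_subset_left)

end

/-- CARD. -/
theorem st_CARD : ST_CARD.{u} := by
  intro Ω _ μ 𝒟 h𝒟 κ hκ hcond hex
  obtain ⟨𝒞, h𝒞, hdisj, hthick⟩ := hcond hex
  have key : ∀ C : 𝒞, ∃ A : {A : Set Ω // A ∈ 𝒟 ∧ Thick μ κ A}, μ (A.1 ∩ C.1) ≠ 0 := by
    intro C
    have hC := hthick C.1 C.2
    obtain ⟨A, hA, h⟩ := h𝒟.2.2 C.1 hC.1 hC.2.1 hC.2.2.1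
    exact ⟨⟨A, hA, CARD_meet h𝒟 hA hκ hC h⟩, h⟩
  choose g hg using key
  have hfib : ∀ A : {A : Set Ω // A ∈ 𝒟 ∧ Thick μ κ A}, #(g ⁻¹' {A}) ≤ ℵ₀ := by
    intro A
    have hfin : IsFiniteMeasure (μ.restrict A.1) := ⟨by
      rw [Measure.restrict_apply_univ]
      exact lt_top_iff_ne_top.2 A.2.2.2.2.1⟩
    have h1 := Measure.countable_meas_pos_of_disjoint_iUnion₀ (μ := μ.restrict A.1)
      (As := fun C : 𝒞 => C.1) (fun C => (hthick C.1 C.2).1.nullMeasurableSet) (by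
        intro C C' hne
        change (μ.restrict A.1) (C.1 ∩ C'.1) = 0
        have h2 : μ (C.1 ∩ C'.1) = 0 := hdisj C.2 C'.2 (fun h => hne (Subtype.ext h))
        exact le_antisymm ((Measure.restrict_apply_le _ _).trans h2.le) (zero_le))
    have h2 : (g ⁻¹' {A}).Countable := by
      refine h1.mono (fun C hC => ?_)
      have hC' : g C = A := hC
      change 0 < (μ.restrict A.1) C.1
      rw [Measure.restrict_apply (hthick C.1 C.2).1, pos_iff_ne_zero, Set.inter_comm, ← hC']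
      exact hg C
    exact h2.le_aleph0
  have h1 := Cardinal.mk_le_mk_mul_of_mk_preimage_le g hfib
  have h2 : ℵ₀ < 2 ^ κ := lt_of_le_of_lt hκ (Cardinal.cantor κ)
  have h3 : 2 ^ κ ≤ #{A : Set Ω // A ∈ 𝒟 ∧ Thick μ κ A} * ℵ₀ := h𝒞.trans h1
  rcases le_or_gt #{A : Set Ω // A ∈ 𝒟 ∧ Thick μ κ A} ℵ₀ with h4 | h4
  · exfalso
    have h5 : #{A : Set Ω // A ∈ 𝒟 ∧ Thick μ κ A} * ℵ₀ ≤ ℵ₀ * ℵ₀ := mul_le_mul_left h4 ℵ₀
    rw [Cardinal.aleph0_mul_aleph0] at h5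
    exact absurd (h3.trans h5) (not_le.2 h2)
  · rwa [Cardinal.mul_eq_left h4.le h4.le Cardinal.aleph0_ne_zero] at h3

end DualL1
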