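import Pool.Agent.Helper22.L1F.SEPM
import Pool.Agent.Helper22.L1F.CARD
import Pool.Agent.Helper2.DualL1.Gen

/-! COPIES: `L¹` of a homogeneous piece contains its `ℓ¹`-sum complemented. -/

namespace DualL1

open MeasureTheory Cardinal
open scoped ENNReal

universe u v

section
variable {𝕜 : Type v} [RCLike 𝕜] {Ω : Type u} [MeasurableSpace Ω] (ρ : Measure Ω)

theorem COPIES_summable {E : ℕ → Type*} [∀ n, NormedAddCommGroup (E n)] (f : lp E 1) :
    Summable (fun n => ‖f n‖) := by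
  have h := (lp.memℓp f).summable (by simp)
  simpa using h

theorem COPIES_norm {E : ℕ → Type*} [∀ n, NormedAddCommGroup (E n)] (f : lp E 1) :
    ‖f‖ = ∑' n, ‖f n‖ := by
  have h := lp.norm_eq_tsum_rpow (p := 1) (by simp) f
  simpa using h

theorem COPIES_summable' (A : ℕ → Set Ω) (hA : ∀ n, MeasurableSet (A n))
    (f : lp (fun n => Lp 𝕜 1 (ρ.restrict (A n))) 1) :
    Summable (fun n => extL ρ 𝕜 (hA n) (f n)) := by
  refine Summable.of_norm ?_
  refine (COPIES_summable f).congr (fun n => ?_)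
  exact ((extL ρ 𝕜 (hA n)).norm_map _).symm

/-- the sum of the extensions -/
noncomputable def COPIES_T (A : ℕ → Set Ω) (hA : ∀ n, MeasurableSet (A n)) :
    lp (fun n => Lp 𝕜 1 (ρ.restrict (A n))) 1 →L[𝕜] Lp 𝕜 1 ρ :=
  LinearMap.mkContinuous
    { toFun := fun f => ∑' n, extL ρ 𝕜 (hA n) (f n)
      map_add' := by
        intro f g
        rw [← Summable.tsum_add (COPIES_summable' ρ A hA f) (COPIES_summable' ρ A hA g)]
        refine tsum_congr (fun n => ?_)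
        rw [lp.coeFn_add, Pi.add_apply, map_add]
      map_smul' := by
        intro c f
        rw [RingHom.id_apply, ← Summable.tsum_const_smul _ (COPIES_summable' ρ A hA f)]
        refine tsum_congr (fun n => ?_)
        rw [lp.coeFn_smul, Pi.smul_apply, map_smul] } 1 (by
    intro f
    rw [one_mul, COPIES_norm]
    have h : Summable (fun n => ‖extL ρ 𝕜 (hA n) (f n)‖) :=
      (COPIES_summable f).congr (fun n => ((extL ρ 𝕜 (hA n)).norm_map _).symm)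
    refine (norm_tsum_le_tsum_norm h).trans (le_of_eq (tsum_congr (fun n => ?_)))
    exact (extL ρ 𝕜 (hA n)).norm_map _)

theorem COPIES_T_apply (A : ℕ → Set Ω) (hA : ∀ n, MeasurableSet (A n))
    (f : lp (fun n => Lp 𝕜 1 (ρ.restrict (A n))) 1) :
    COPIES_T ρ A hA f = ∑' n, extL ρ 𝕜 (hA n) (f n) := rfl

/-- restriction to a set -/
noncomputable abbrev COPIES_R (B : Set Ω) : Lp 𝕜 1 ρ →L[𝕜] Lp 𝕜 1 (ρ.restrict B) :=
  LpToLpRestrictCLM Ω 𝕜 𝕜 ρ 1 B

theorem COPIES_R_norm {B : Set Ω} (g : Lp 𝕜 1 ρ) :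
    ‖COPIES_R ρ B g‖ = ∫ x in B, ‖(g : Ω → 𝕜) x‖ ∂ρ := by
  rw [L1.norm_eq_integral_norm]
  refine integral_congr_ae ?_
  filter_upwards [LpToLpRestrictCLM_coeFn (p := 1) (μ := ρ) 𝕜 B g] with x hx
  rw [hx]

theorem COPIES_hasSum (A : ℕ → Set Ω) (hA : ∀ n, MeasurableSet (A n))
    (hd : Pairwise (fun m n => Disjoint (A m) (A n))) (g : Lp 𝕜 1 ρ) :
    HasSum (fun n => ‖COPIES_R ρ (A n) g‖) (∫ x in ⋃ n, A n, ‖(g : Ω → 𝕜) x‖ ∂ρ) := by
  have h := hasSum_integral_iUnion (μ := ρ) (f := fun x => ‖(g : Ω → 𝕜) x‖) hA hd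
    (L1.integrable_coeFn g).norm.integrableOn
  have h2 : (fun n => ‖COPIES_R ρ (A n) g‖) = fun n => ∫ x in A n, ‖(g : Ω → 𝕜) x‖ ∂ρ := by
    funext n
    exact COPIES_R_norm ρ g
  rw [h2]
  exact h

theorem COPIES_int_le (B : Set Ω) (g : Lp 𝕜 1 ρ) :
    ∫ x in B, ‖(g : Ω → 𝕜) x‖ ∂ρ ≤ ‖g‖ := by
  rw [L1.norm_eq_integral_norm]
  exact setIntegral_le_integral (L1.integrable_coeFn g).norm
    (Filter.Eventually.of_forall (fun x => norm_nonneg _))

/-- the family of the restrictions -/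
noncomputable def COPIES_S (A : ℕ → Set Ω) (hA : ∀ n, MeasurableSet (A n))
    (hd : Pairwise (fun m n => Disjoint (A m) (A n))) :
    Lp 𝕜 1 ρ →L[𝕜] lp (fun n => Lp 𝕜 1 (ρ.restrict (A n))) 1 :=
  LinearMap.mkContinuous
    { toFun := fun g => ⟨fun n => COPIES_R ρ (A n) g, by
        refine memℓp_gen ?_
        simpa using (COPIES_hasSum ρ A hA hd g).summable⟩
      map_add' := by
        intro f g
        ext1
        funext n
        rw [lp.coeFn_add, Pi.add_apply]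
        exact map_add _ f g
      map_smul' := by
        intro c f
        ext1
        funext n
        rw [RingHom.id_apply, lp.coeFn_smul, Pi.smul_apply]
        exact map_smul _ c f } 1 (by
    intro g
    rw [one_mul, COPIES_norm]
    exact (COPIES_hasSum ρ A hA hd g).tsum_eq.le.trans (COPIES_int_le ρ _ g))

theorem COPIES_S_apply (A : ℕ → Set Ω) (hA : ∀ n, MeasurableSet (A n))
    (hd : Pairwise (fun m n => Disjoint (A m) (A n))) (g : Lp 𝕜 1 ρ) (n : ℕ) :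
    COPIES_S ρ A hA hd g n = COPIES_R ρ (A n) g := rfl

theorem COPIES_R_ext {A B : Set Ω} (hA : MeasurableSet A) (hB : MeasurableSet B)
    (hd : Disjoint A B) (f : Lp 𝕜 1 (ρ.restrict A)) : COPIES_R ρ B (extL ρ 𝕜 hA f) = 0 := by
  refine Lp.ext ?_
  filter_upwards [LpToLpRestrictCLM_coeFn (p := 1) (μ := ρ) 𝕜 B (extL ρ 𝕜 hA f),
    Lp.coeFn_zero 𝕜 1 (ρ.restrict B), (ae_restrict_iff' hB).2 ((extL_zero_off hA f).mono
      (fun x hx (_ : x ∈ B) => hx)), ae_restrict_mem hB] with x h1 h2 h3 h4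
  rw [h2, Pi.zero_apply, ← h3 (Set.disjoint_right.1 hd h4)]
  exact h1

theorem COPIES_R_ext_self {A : Set Ω} (hA : MeasurableSet A) (f : Lp 𝕜 1 (ρ.restrict A)) :
    COPIES_R ρ A (extL ρ 𝕜 hA f) = f := by
  refine Lp.ext ?_
  have h0 := (ae_restrict_iff' hA).2 ((coeFn_tl (integrable_ind_of_restrict hA
    (L1.integrable_coeFn f))).mono (fun x hx (_ : x ∈ A) => hx))
  filter_upwards [LpToLpRestrictCLM_coeFn (p := 1) (μ := ρ) 𝕜 A (extL ρ 𝕜 hA f), h0,
    ae_restrict_mem hA] with x h1 h2 h3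
  rw [Set.indicator_of_mem h3] at h2
  exact h1.trans h2

/-- the `ℓ¹`-sum of the `L¹` of disjoint sets is complemented -/
theorem COPIES_compl (A : ℕ → Set Ω) (hA : ∀ n, MeasurableSet (A n))
    (hd : Pairwise (fun m n => Disjoint (A m) (A n))) :
    Compl1 𝕜 (lp (fun n => Lp 𝕜 1 (ρ.restrict (A n))) 1) (Lp 𝕜 1 ρ) := by
  refine ⟨COPIES_T ρ A hA, COPIES_S ρ A hA hd, LinearMap.mkContinuous_norm_le _ zero_le_one _,
    LinearMap.mkContinuous_norm_le _ zero_le_one _, fun f => ?_⟩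
  ext1
  funext n
  rw [COPIES_S_apply, COPIES_T_apply, ContinuousLinearMap.map_tsum _ (COPIES_summable' ρ A hA f),
    tsum_eq_single n, COPIES_R_ext_self]
  intro k hk
  exact COPIES_R_ext ρ (hA k) (hA n) (hd hk) _

end

/-- a set without atoms contains a sequence of disjoint positive sets -/
theorem COPIES_seq {Ω : Type u} [MeasurableSpace Ω] {μ : Measure Ω} {A : Set Ω}
    (hA : MeasurableSet A) (h0 : 0 < μ A) (h : ∀ B ⊆ A, MeasurableSet B → 0 < μ B →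
      ¬ IsAtomOf μ B) :
    ∃ C : ℕ → Set Ω, (∀ n, MeasurableSet (C n)) ∧ (∀ n, C n ⊆ A) ∧ (∀ n, 0 < μ (C n)) ∧
      Pairwise (fun m n => Disjoint (C m) (C n)) := by
  have hsplit : ∀ B : {B : Set Ω // B ⊆ A ∧ MeasurableSet B ∧ 0 < μ B},
      ∃ B' : {B : Set Ω // B ⊆ A ∧ MeasurableSet B ∧ 0 < μ B}, B'.1 ⊆ B.1 ∧
        0 < μ (B.1 \ B'.1) := by
    rintro ⟨B, hBA, hBm, hB0⟩
    have h1 := h B hBA hBm hB0
    unfold IsAtomOf at h1
    push Not at h1
    obtain ⟨B', hB', hm', h2, h3⟩ := h1 hBm hB0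
    exact ⟨⟨B', hB'.trans hBA, hm', pos_iff_ne_zero.2 h2⟩, hB', pos_iff_ne_zero.2 h3⟩
  choose g hg hg' using hsplit
  set s : ℕ → {B : Set Ω // B ⊆ A ∧ MeasurableSet B ∧ 0 < μ B} :=
    fun n => g^[n] ⟨A, subset_rfl, hA, h0⟩ with hs
  have hsucc : ∀ n, s (n + 1) = g (s n) := fun n => Function.iterate_succ_apply' g n _
  have hanti : ∀ n m, n ≤ m → (s m).1 ⊆ (s n).1 := by
    intro n m hnm
    induction m, hnm using Nat.le_induction with
    | base => exact subset_rfl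
    | succ m _ ih =>
      rw [hsucc]
      exact (hg _).trans ih
  refine ⟨fun n => (s n).1 \ (s (n + 1)).1, fun n => (s n).2.2.1.diff (s (n + 1)).2.2.1,
    fun n => Set.diff_subset.trans (s n).2.1, fun n => ?_, ?_⟩
  · change 0 < μ ((s n).1 \ (s (n + 1)).1)
    rw [hsucc]
    exact hg' _
  · have key : ∀ m n, m < n → Disjoint ((s m).1 \ (s (m + 1)).1) ((s n).1 \ (s (n + 1)).1) := by
      intro m n hmn
      rw [Set.disjoint_left]
      rintro x ⟨_, h1⟩ ⟨h2, _⟩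
      exact h1 (hanti (m + 1) n hmn h2)
    intro m n hmn
    rcases lt_or_gt_of_ne hmn with h1 | h1
    · exact key m n h1
    · exact (key n m h1).symm

theorem COPIES_thick_sub {Ω : Type u} [MeasurableSpace Ω] {μ : Measure Ω} {κ : Cardinal.{u}}
    {A B : Set Ω} (h : Thick μ κ A) (hB : B ⊆ A) (hm : MeasurableSet B) (h0 : 0 < μ B) :
    Thick μ κ B :=
  ⟨hm, h0, ne_top_of_le_ne_top h.2.2.1 (measure_mono hB), fun C hC => h.2.2.2 C (hC.trans hB)⟩

/-- COPIES. -/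
theorem st_COPIES (hGEN : ST_GEN.{u, v}) (hEMB : ST_EMB.{u, v})
    (hSUM5 : ST_SUM5.{0, 0, v, max u v, max u v}) : ST_COPIES.{u, v} := by
  intro 𝕜 _ Ω _ μ κ A hκ hA
  obtain ⟨hth, 𝒢, h𝒢, hc, hg⟩ := hA
  have hatom : ∀ B ⊆ A, MeasurableSet B → 0 < μ B → ¬ IsAtomOf μ B := by
    intro B hB hm h0 hat
    refine hth.2.2.2 B hB hm h0 ∅ (fun G hG => absurd hG (Set.notMem_empty G)) ?_
      (CARD_atom_gen hat)
    rw [Cardinal.mk_emptyCollection]
    exact lt_of_lt_of_le Cardinal.aleph0_pos hκ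
  obtain ⟨C, hCm, hCA, hC0, hCd⟩ := COPIES_seq hth.1 hth.2.1 hatom
  have hI : #κ.out = κ := Cardinal.mk_out κ
  have hne : Nonempty κ.out := by
    rw [← Cardinal.mk_ne_zero_iff, hI]
    exact (Cardinal.aleph0_pos.trans_le hκ).ne'
  obtain ⟨ν, hν, h1⟩ := hGEN 𝕜 μ A 𝒢 κ.out hth.1 hth.2.1 hth.2.2.1 h𝒢 hg hne (by rw [hI]; exact hc)
  have h2 : ∀ n, Compl1 𝕜 (Lp 𝕜 1 (μ.restrict A)) (Lp 𝕜 1 (μ.restrict (C n))) := fun n =>
    SEPM_compl1_trans h1 (hEMB 𝕜 μ κ (C n) hκ (COPIES_thick_sub hth (hCA n) (hCm n) (hC0 n))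
      κ.out hI.le ν hν)
  have h3 : Compl1 𝕜 (lp (fun _ : ℕ => Lp 𝕜 1 (μ.restrict A)) 1)
      (lp (fun n : ℕ => Lp 𝕜 1 (μ.restrict (C n))) 1) :=
    hSUM5 𝕜 ℕ ℕ (fun _ => Lp 𝕜 1 (μ.restrict A)) (fun n => Lp 𝕜 1 (μ.restrict (C n))) id
      Function.injective_id h2
  have h4 : ∀ B : ℕ → Measure Ω, B = (fun n => (μ.restrict A).restrict (C n)) →
      Compl1 𝕜 (lp (fun n => Lp 𝕜 1 (B n)) 1) (Lp 𝕜 1 (μ.restrict A)) := by
    rintro _ rfl
    exact COPIES_compl (μ.restrict A) C hCm hCd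
  refine SEPM_compl1_trans h3 (h4 (fun n => μ.restrict (C n)) ?_)
  funext n
  rw [Measure.restrict_restrict (hCm n), Set.inter_eq_left.2 (hCA n)]

end DualL1
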