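import Pool.Agent.Helper60.L1Full.Stmts

/-! FREER: the free set theorem for regular cardinals. -/

namespace DualL1

open Cardinal

universe u

/-- free sets -/
def FREER_free {I : Type u} (S : I → Set I) (Γ : Set I) : Prop :=
  ∀ i ∈ Γ, ∀ j ∈ Γ, i ≠ j → j ∉ S i

theorem FREER_max {I : Type u} (S : I → Set I) (X : Set I) :
    ∃ Y ⊆ X, FREER_free S Y ∧ ∀ x ∈ X, FREER_free S (insert x Y) → x ∈ Y := by
  obtain ⟨Y, hY⟩ := zorn_subset {Y | Y ⊆ X ∧ FREER_free S Y} (by
    intro c hc hchain
    refine ⟨⋃₀ c, ⟨Set.sUnion_subset (fun s hs => (hc hs).1), ?_⟩,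
      fun s hs => Set.subset_sUnion_of_mem hs⟩
    rintro i ⟨s, hs, hi⟩ j ⟨t, ht, hj⟩ hij
    rcases hchain.total hs ht with h | h
    · exact (hc ht).2 i (h hi) j hj hij
    · exact (hc hs).2 i hi j (h hj) hij)
  refine ⟨Y, hY.1.1, hY.1.2, fun x hx hf => ?_⟩
  have h1 := hY.2 (y := insert x Y) ⟨Set.insert_subset hx hY.1.1, hf⟩ (Set.subset_insert x Y)
  exact h1 (Set.mem_insert x Y)

/-- FREER. -/
theorem st_FREER : ST_FREER.{u} := by
  intro I hI hreg S hS
  by_contra hcon
  push Not at hcon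
  choose F hFX hFf hFm using FREER_max S
  set W : Type u := (ℵ₁ : Cardinal.{u}).ord.ToType with hW
  have hWc : #W = ℵ₁ := by rw [hW, Cardinal.mk_toType, Cardinal.card_ord]
  have wf : WellFounded (fun a b : W => a < b) := wellFounded_lt
  set A : W → Set I := wf.fix (fun i ih => F (⋃ j : {j // j < i}, ih j.1 j.2)ᶜ) with hA
  have hAi : ∀ i, A i = F (⋃ j : {j // j < i}, A j.1)ᶜ := by
    intro i
    rw [hA]
    exact wf.fix_eq _ i
  have hfree : ∀ i, FREER_free S (A i) := fun i => by rw [hAi]; exact hFf _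
  have hlt : ∀ i, #(A i) < #I := by
    intro i
    refine lt_of_le_of_ne (Cardinal.mk_set_le _) (fun h => ?_)
    obtain ⟨a, ha, b, hb, hab, h2⟩ := hcon (A i) h
    exact hfree i a ha b hb hab h2
  have hℵ0 : ℵ₀ < #I := (Cardinal.aleph0_lt_aleph_one).trans hI
  have hSlt : ∀ i, #(⋃ a : A i, S a.1) < #I := by
    intro i
    refine (Cardinal.card_iUnion_lt_iff_forall_of_isRegular hreg (hlt i)).2 (fun a => ?_)
    exact lt_of_le_of_lt (hS a.1).le_aleph0 hℵ0
  have hU : #(⋃ i : W, (A i ∪ ⋃ a : A i, S a.1) : Set I) < #I := by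
    refine (Cardinal.card_iUnion_lt_iff_forall_of_isRegular hreg (by rw [hWc]; exact hI)).2
      (fun i => ?_)
    exact lt_of_le_of_lt (Cardinal.mk_union_le _ _)
      (Cardinal.add_lt_of_lt hreg.aleph0_le (hlt i) (hSlt i))
  obtain ⟨x, hx⟩ : ∃ x, x ∉ (⋃ i : W, (A i ∪ ⋃ a : A i, S a.1) : Set I) := by
    by_contra h
    push Not at h
    have : (⋃ i : W, (A i ∪ ⋃ a : A i, S a.1) : Set I) = Set.univ :=
      Set.eq_univ_of_forall h
    rw [this, Cardinal.mk_univ] at hU
    exact lt_irrefl _ hU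
  simp only [Set.mem_iUnion, Set.mem_union, not_exists, not_or] at hx
  have hex : ∀ i : W, ∃ a ∈ A i, a ∈ S x := by
    intro i
    by_contra hno
    push Not at hno
    have hmem : x ∈ (⋃ j : {j // j < i}, A j.1)ᶜ := by
      simp only [Set.mem_compl_iff, Set.mem_iUnion, not_exists]
      intro j
      exact (hx j.1).1
    have h1 : FREER_free S (insert x (F (⋃ j : {j // j < i}, A j.1)ᶜ)) := by
      rw [← hAi i]
      intro a ha b hb hab
      rcases Set.mem_insert_iff.1 ha with h1 | h1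
      · rcases Set.mem_insert_iff.1 hb with h2 | h2
        · exact absurd (h1.trans h2.symm) hab
        · rw [h1]
          exact hno b h2
      · rcases Set.mem_insert_iff.1 hb with h2 | h2
        · rw [h2]
          exact fun h => (hx i).2 ⟨a, h1⟩ h
        · exact hfree i a h1 b h2 hab
    have h2 := hFm _ x hmem h1
    rw [← hAi i] at h2
    exact (hx i).1 h2
  choose g hg hgS using hex
  have hdisj : ∀ i j : W, i < j → g i ≠ g j := by
    intro i j hij h
    have h1 := hFX (⋃ j' : {j' // j' < j}, A j'.1)ᶜ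
    rw [← hAi j] at h1
    have h2 := h1 (hg j)
    simp only [Set.mem_compl_iff, Set.mem_iUnion, not_exists] at h2
    exact h2 ⟨i, hij⟩ (h ▸ hg i)
  have hinj : Function.Injective (fun i : W => (⟨g i, hgS i⟩ : S x)) := by
    intro i j h
    have h' : g i = g j := congrArg Subtype.val h
    rcases lt_trichotomy i j with h1 | h1 | h1
    · exact absurd h' (hdisj i j h1)
    · exact h1
    · exact absurd h'.symm (hdisj j i h1)
  have h1 := Cardinal.mk_le_of_injective hinj
  rw [hWc] at h1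
  exact absurd (h1.trans (hS x).le_aleph0) (not_le.2 Cardinal.aleph0_lt_aleph_one)

end DualL1
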