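import Pool.Agent.Helper60.L1Full.Stmts2

/-! Lemmas on measurable and closed subsets of `{0,1}^I` depending on countably many coordinates. -/

namespace DualL1

open MeasureTheory Cardinal
open scoped ENNReal

universe u v w

/-- `Z` depends only on the coordinates in `S` -/
def KB_dep {I : Type u} (S : Set I) (Z : Set (I → Bool)) : Prop :=
  ∀ x y : I → Bool, (∀ j ∈ S, x j = y j) → (x ∈ Z ↔ y ∈ Z)

section
variable {I : Type u}

theorem KB_dep_mono {S T : Set I} {Z : Set (I → Bool)} (h : KB_dep S Z) (hST : S ⊆ T) :
    KB_dep T Z := fun x y hxy => h x y (fun j hj => hxy j (hST hj))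

/-- extension by `false` -/
noncomputable def KB_ext (S : Set I) (y : S → Bool) : I → Bool := by
  classical
  exact fun i => if h : i ∈ S then y ⟨i, h⟩ else false

/-- restriction -/
def KB_res (S : Set I) (x : I → Bool) : S → Bool := fun i => x i.1

theorem KB_ext_mem {S : Set I} (y : S → Bool) (i : I) (h : i ∈ S) :
    KB_ext S y i = y ⟨i, h⟩ := by
  unfold KB_ext
  rw [dif_pos h]

theorem KB_res_ext (S : Set I) (y : S → Bool) : KB_res S (KB_ext S y) = y := by
  funext i
  exact KB_ext_mem y i.1 i.2

theorem KB_continuous_ext (S : Set I) : Continuous (KB_ext S) := by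
  refine continuous_pi (fun i => ?_)
  by_cases h : i ∈ S
  · have : (fun y : S → Bool => KB_ext S y i) = fun y => y ⟨i, h⟩ := by
      funext y
      exact KB_ext_mem y i h
    rw [this]
    exact continuous_apply _
  · have : (fun y : S → Bool => KB_ext S y i) = fun _ => false := by
      funext y
      unfold KB_ext
      rw [dif_neg h]
    rw [this]
    exact continuous_const

theorem KB_continuous_res (S : Set I) : Continuous (KB_res S) :=
  continuous_pi (fun i => continuous_apply i.1)

theorem KB_measurable_res (S : Set I) : Measurable (KB_res S) :=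
  measurable_pi_iff.2 (fun i => measurable_pi_apply i.1)

theorem KB_measurable_ext (S : Set I) : Measurable (KB_ext S) := by
  refine measurable_pi_iff.2 (fun i => ?_)
  by_cases h : i ∈ S
  · have : (fun y : S → Bool => KB_ext S y i) = fun y => y ⟨i, h⟩ := by
      funext y
      exact KB_ext_mem y i h
    rw [this]
    exact measurable_pi_apply _
  · have : (fun y : S → Bool => KB_ext S y i) = fun _ => false := by
      funext y
      unfold KB_ext
      rw [dif_neg h]
    rw [this]
    exact measurable_const

theorem KB_eq_pre {S : Set I} {Z : Set (I → Bool)} (h : KB_dep S Z) :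
    Z = KB_res S ⁻¹' (KB_ext S ⁻¹' Z) := by
  ext x
  refine h x _ (fun j hj => ?_)
  rw [KB_ext_mem _ j hj]
  rfl

/-- closed sets depending on countably many coordinates are measurable -/
theorem KB_meas_closed {S : Set I} (hS : S.Countable) {Z : Set (I → Bool)} (hZ : IsClosed Z)
    (h : KB_dep S Z) : MeasurableSet Z := by
  haveI : Countable S := hS.to_subtype
  rw [KB_eq_pre h]
  exact KB_measurable_res S ((hZ.preimage (KB_continuous_ext S)).measurableSet)

/-- measurable sets depend on countably many coordinates -/
theorem KB_meas_dep {E : Set (I → Bool)} (hE : MeasurableSet E) :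
    ∃ S : Set I, S.Countable ∧ KB_dep S E := by
  let m' : MeasurableSpace (I → Bool) :=
    { MeasurableSet' := fun E => ∃ S : Set I, S.Countable ∧ KB_dep S E
      measurableSet_empty := ⟨∅, Set.countable_empty, fun x y _ => Iff.rfl⟩
      measurableSet_compl := by
        rintro E ⟨S, hS, h⟩
        exact ⟨S, hS, fun x y hxy => not_congr (h x y hxy)⟩
      measurableSet_iUnion := by
        intro f hf
        choose S hS h using hf
        refine ⟨⋃ n, S n, Set.countable_iUnion hS, fun x y hxy => ?_⟩
        simp only [Set.mem_iUnion]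
        refine exists_congr (fun n => h n x y (fun j hj => hxy j ?_))
        exact Set.mem_iUnion.2 ⟨n, hj⟩ }
  have hle : (MeasurableSpace.pi : MeasurableSpace (I → Bool)) ≤ m' := by
    refine iSup_le (fun i => ?_)
    rintro _ ⟨B, _, rfl⟩
    refine ⟨{i}, Set.countable_singleton i, fun x y hxy => ?_⟩
    change x i ∈ B ↔ y i ∈ B
    rw [hxy i rfl]
  exact hle _ hE

/-- inner regularity by closed sets depending on the same countable set of coordinates -/
theorem KB_inner {S : Set I} (hS : S.Countable) {E : Set (I → Bool)} (hE : MeasurableSet E)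
    (h : KB_dep S E) (m : Measure (I → Bool)) [IsFiniteMeasure m] {ε : ℝ≥0∞} (hε : ε ≠ 0) :
    ∃ Z ⊆ E, IsClosed Z ∧ KB_dep S Z ∧ m (E \ Z) < ε := by
  haveI : Countable S := hS.to_subtype
  set E' : Set (S → Bool) := KB_ext S ⁻¹' E with hE'
  have hE'm : MeasurableSet E' := KB_measurable_ext S hE
  set m' : Measure (S → Bool) := m.map (KB_res S) with hm'
  haveI : IsFiniteMeasure m' := Measure.isFiniteMeasure_map m _
  obtain ⟨Z', hZE, hZc, hZ⟩ := hE'm.exists_isClosed_diff_lt (μ := m') (measure_ne_top _ _) hε
  refine ⟨KB_res S ⁻¹' Z', ?_, hZc.preimage (KB_continuous_res S), ?_, ?_⟩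
  · rw [KB_eq_pre h]
    exact Set.preimage_mono hZE
  · intro x y hxy
    have : KB_res S x = KB_res S y := by
      funext i
      exact hxy i.1 i.2
    change KB_res S x ∈ Z' ↔ KB_res S y ∈ Z'
    rw [this]
  · have h1 : E \ KB_res S ⁻¹' Z' = KB_res S ⁻¹' (E' \ Z') := by
      rw [Set.preimage_diff, hE', ← KB_eq_pre h]
    rw [h1, ← Measure.map_apply (KB_measurable_res S) (hE'm.diff hZc.measurableSet)]
    exact hZ

/-- clopen sets are measurable -/
theorem KB_meas_clopen {C : Set (I → Bool)} (hC : IsClopen C) : MeasurableSet C := by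
  classical
  -- a clopen set depends on finitely many coordinates
  have hcyl : ∀ x ∈ C, ∃ F : Finset I, {y : I → Bool | ∀ i ∈ F, y i = x i} ⊆ C := by
    intro x hx
    obtain ⟨F, t, ht, hF⟩ := isOpen_pi_iff.1 hC.isOpen x hx
    refine ⟨F, fun y hy => hF (fun i hi => ?_)⟩
    rw [hy i hi]
    exact (ht i hi).2
  choose! F hF using hcyl
  have hopen : ∀ x, IsOpen {y : I → Bool | ∀ i ∈ F x, y i = x i} := by
    intro x
    have : {y : I → Bool | ∀ i ∈ F x, y i = x i} = ⋂ i ∈ F x, {y | y i = x i} := by
      ext y
      simp
    rw [this]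
    refine isOpen_biInter_finset (fun i _ => ?_)
    have h1 : IsOpen ({x i} : Set Bool) := isOpen_discrete _
    exact h1.preimage (continuous_apply (A := fun _ : I => Bool) i)
  obtain ⟨t, ht⟩ := hC.isClosed.isCompact.elim_finite_subcover
    (fun x : C => {y : I → Bool | ∀ i ∈ F x.1, y i = x.1 i}) (fun x => hopen x.1)
    (fun x hx => Set.mem_iUnion.2 ⟨⟨x, hx⟩, fun i _ => rfl⟩)
  have hCeq : C = ⋃ x ∈ t, {y : I → Bool | ∀ i ∈ F x.1, y i = x.1 i} := by
    refine Set.Subset.antisymm ht ?_
    refine Set.iUnion₂_subset (fun x _ => hF x.1 x.2)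
  rw [hCeq]
  refine Finset.measurableSet_biUnion _ (fun x _ => ?_)
  have : {y : I → Bool | ∀ i ∈ F x.1, y i = x.1 i} = ⋂ i ∈ F x.1, {y | y i = x.1 i} := by
    ext y
    simp
  rw [this]
  refine Finset.measurableSet_biInter _ (fun i _ => ?_)
  exact measurable_pi_apply (X := fun _ : I => Bool) i (MeasurableSet.of_discrete (s := {x.1 i}))

end

theorem KB_Iio_countable (i : W1.{u}) : {j : W1.{u} | j < i}.Countable := by
  have h := Cardinal.mk_Iio_ord_toType i
  exact (Cardinal.countable_iff_lt_aleph_one _).2 h

/-- KUNM. -/
theorem st_KUNM : ST_KUNM.{u} := by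
  classical
  intro F hF hdep
  have hFm : ∀ i, MeasurableSet (F i) := fun i =>
    KB_meas_closed (KB_Iio_countable i) (hF i) (fun x y hxy => hdep i x y hxy)
  refine measurable_pi_iff.2 (fun i => ?_)
  have wf : WellFounded (fun a b : W1.{u} => a < b) := wellFounded_lt
  induction i using wf.induction with
  | _ i ih =>
    have hprev : Measurable (fun (u : W1.{u} → Bool) (j : W1.{u}) =>
        if j < i then kx F u j else false) := by
      refine measurable_pi_iff.2 (fun j => ?_)
      by_cases h : j < i
      · simp only [h, if_true]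
        exact ih j h
      · simp only [h, if_false]
        exact measurable_const
    have h1 : (fun u : W1.{u} → Bool => kx F u i) = fun u =>
        (u i && decide ((fun j => if j < i then kx F u j else false) ∈ F i)) := by
      funext u
      exact kx_eq F u i
    rw [h1]
    have h2 : MeasurableSet {u : W1.{u} → Bool |
        (fun j => if j < i then kx F u j else false) ∈ F i} := hprev (hFm i)
    refine measurable_to_bool ?_
    have h3 : (fun u : W1.{u} → Bool => (u i && decide ((fun j => if j < i then kx F u j
        else false) ∈ F i))) ⁻¹' {true} = {u | u i = true} ∩ {u : W1.{u} → Bool |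
        (fun j => if j < i then kx F u j else false) ∈ F i} := by
      ext u
      simp
    rw [h3]
    exact (measurable_pi_apply (X := fun _ : W1.{u} => Bool) i
      (MeasurableSet.of_discrete (s := {true}))).inter h2

end DualL1
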