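import Pool.Agent.Helper22.L1F.KUNA

/-! KCARD: there are few measures living on countably many coordinates. SEPM. -/

namespace DualL1

open MeasureTheory Cardinal
open scoped ENNReal

universe u v

section
variable {I : Type u}

/-- probability measures on `{0,1}^I` are determined by their values on the positive cylinders -/
theorem KCARD_ext {m m' : Measure (I → Bool)} (h : IsProbabilityMeasure m)
    (h' : IsProbabilityMeasure m')
    (hF : ∀ F : Finset I, m {x | ∀ i ∈ F, x i = true} = m' {x | ∀ i ∈ F, x i = true}) :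
    m = m' := by
  classical
  have hgen : (MeasurableSpace.pi : MeasurableSpace (I → Bool)) =
      MeasurableSpace.generateFrom (Set.range (fun F : Finset I =>
        {x : I → Bool | ∀ i ∈ F, x i = true})) := by
    apply le_antisymm
    · rw [KUNA_gen]
      refine MeasurableSpace.generateFrom_le ?_
      rintro _ ⟨i, rfl⟩
      refine MeasurableSpace.measurableSet_generateFrom ⟨{i}, ?_⟩
      ext x
      simp
    · refine MeasurableSpace.generateFrom_le ?_
      rintro _ ⟨F, rfl⟩
      have : {x : I → Bool | ∀ i ∈ F, x i = true} = ⋂ i ∈ F, {x | x i = true} := by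
        ext y
        simp
      change MeasurableSet {x : I → Bool | ∀ i ∈ F, x i = true}
      rw [this]
      refine Finset.measurableSet_biInter _ (fun i _ => ?_)
      exact measurable_pi_apply (X := fun _ : I => Bool) i (MeasurableSet.of_discrete (s := {true}))
  refine ext_of_generate_finite _ hgen ?_ ?_ (by rw [measure_univ, measure_univ])
  · rintro _ ⟨F, rfl⟩ _ ⟨G, rfl⟩ _
    refine ⟨F ∪ G, ?_⟩
    ext x
    simp only [Set.mem_setOf_eq, Set.mem_inter_iff, Finset.mem_union]
    constructor
    · exact fun h => ⟨fun i hi => h i (Or.inl hi), fun i hi => h i (Or.inr hi)⟩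
    · rintro ⟨h1, h2⟩ i (hi | hi)
      · exact h1 i hi
      · exact h2 i hi
  · rintro _ ⟨F, rfl⟩
    exact hF F

end

/-- KCARD. -/
theorem st_KCARD : ST_KCARD.{u} := by
  classical
  intro I hI hCH
  have hne : Nonempty I := by
    rw [← Cardinal.mk_ne_zero_iff, hI]
    exact (Cardinal.aleph0_pos.trans Cardinal.aleph0_lt_aleph_one).ne'
  -- an enumeration of the coordinates
  have henum : ∀ m : {m : Measure (I → Bool) // IsProbabilityMeasure m ∧
      ∃ S : Set I, S.Countable ∧ ∀ i ∉ S, m {x | x i = true} = 0},
      ∃ s : ℕ → I, ∀ i, i ∉ Set.range s → m.1 {x | x i = true} = 0 := by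
    rintro ⟨m, _, S, hS, h⟩
    obtain ⟨s, hs⟩ := (hS.insert hne.some).exists_eq_range ⟨_, Set.mem_insert _ _⟩
    refine ⟨s, fun i hi => h i (fun h2 => hi ?_)⟩
    rw [← hs]
    exact Set.mem_insert_of_mem _ h2
  choose s hs using henum
  set f : {m : Measure (I → Bool) // IsProbabilityMeasure m ∧
      ∃ S : Set I, S.Countable ∧ ∀ i ∉ S, m {x | x i = true} = 0} →
      (ℕ → I) × (Finset ℕ → ℝ) := fun m => (s m, fun F =>
        (m.1 {x | ∀ n ∈ F, x (s m n) = true}).toReal) with hf
  have hinj : Function.Injective f := by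
    intro m m' h
    have h1 : s m = s m' := (Prod.mk.inj h).1
    have h2 := (Prod.mk.inj h).2
    have hp := m.2.1
    have hp' := m'.2.1
    refine Subtype.ext (KCARD_ext hp hp' (fun F => ?_))
    by_cases hF : ∀ i ∈ F, i ∈ Set.range (s m)
    · choose! g hg using hF
      have h3 : ∀ (t : ℕ → I), t = s m → {x : I → Bool | ∀ i ∈ F, x i = true} =
          {x | ∀ n ∈ F.image g, x (t n) = true} := by
        rintro t rfl
        ext x
        simp only [Set.mem_setOf_eq, Finset.mem_image, forall_exists_index, and_imp,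
          forall_apply_eq_imp_iff₂]
        exact forall₂_congr (fun i hi => by rw [hg i hi])
      have h4 := congrFun h2 (F.image g)
      have h5 : m.1 {x | ∀ n ∈ F.image g, x (s m n) = true} =
          m'.1 {x | ∀ n ∈ F.image g, x (s m' n) = true} :=
        (ENNReal.toReal_eq_toReal_iff' (measure_ne_top _ _) (measure_ne_top _ _)).1 h4
      rw [← h3 (s m) rfl, ← h3 (s m') h1.symm] at h5
      exact h5
    · push Not at hF
      obtain ⟨i, hi, hi'⟩ := hF
      have h3 : {x : I → Bool | ∀ i ∈ F, x i = true} ⊆ {x | x i = true} := fun x hx => hx i hi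
      rw [measure_mono_null h3 (hs m i hi'), measure_mono_null h3 (hs m' i (by rwa [← h1]))]
  have hc := Cardinal.mk_le_of_injective hinj
  refine hc.trans ?_
  rw [Cardinal.mk_prod]
  have h1 : #(ℕ → I) = ℵ₁ := by
    rw [Cardinal.mk_pi, Cardinal.prod_const, hI, ← hCH]
    simp
  have h2 : #(Finset ℕ → ℝ) = 𝔠 := by
    rw [Cardinal.mk_pi, Cardinal.prod_const, Cardinal.mk_real]
    simp
  rw [h1, h2, Cardinal.lift_continuum, hCH]
  simp

end DualL1
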