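import Pool.Agent.Helper22.L1F.KUNS

/-! KUNA: existence of the system of closed sets under CH. -/

namespace DualL1

open MeasureTheory Cardinal
open scoped ENNReal

universe u

/-- admissible systems: closed sets depending on the earlier coordinates -/
def KUNA_adm (F : W1.{u} → Set (W1.{u} → Bool)) : Prop :=
  (∀ i, IsClosed (F i)) ∧ ∀ i, ∀ x y : W1.{u} → Bool, (∀ j < i, x j = y j) → (x ∈ F i ↔ y ∈ F i)

open Classical in
/-- the part of `kx` below `i` -/
noncomputable def KUNA_prev (F : W1.{u} → Set (W1.{u} → Bool)) (i : W1.{u})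
    (u : W1.{u} → Bool) : W1.{u} → Bool := fun j => if j < i then kx F u j else false

theorem KUNA_prev_meas {F : W1.{u} → Set (W1.{u} → Bool)} (hF : KUNA_adm F) (i : W1.{u}) :
    Measurable (KUNA_prev F i) := by
  classical
  have h := st_KUNM F hF.1 hF.2
  refine measurable_pi_iff.2 (fun j => ?_)
  unfold KUNA_prev
  by_cases hj : j < i
  · simp only [hj, if_true]
    exact (measurable_pi_iff.1 h) j
  · simp only [hj, if_false]
    exact measurable_const

theorem KUNA_kx_congr {F G : W1.{u} → Set (W1.{u} → Bool)} (u : W1.{u} → Bool) (i : W1.{u})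
    (h : ∀ j ≤ i, F j = G j) : kx F u i = kx G u i := by
  have wf : WellFounded (fun a b : W1.{u} => a < b) := wellFounded_lt
  induction i using wf.induction with
  | _ i ih =>
    rw [kx_eq, kx_eq, h i le_rfl]
    have : (fun j => if j < i then kx F u j else false) =
        fun j => if j < i then kx G u j else false := by
      funext j
      by_cases hj : j < i
      · simp only [hj, if_true]
        exact ih j hj (fun k hk => h k (hk.trans hj.le))
      · simp only [hj, if_false]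
    rw [this]

theorem KUNA_prev_congr {F G : W1.{u} → Set (W1.{u} → Bool)} (i : W1.{u})
    (h : ∀ j < i, F j = G j) : KUNA_prev F i = KUNA_prev G i := by
  classical
  funext u j
  unfold KUNA_prev
  by_cases hj : j < i
  · simp only [hj, if_true]
    exact KUNA_kx_congr u j (fun k hk => h k (hk.trans_lt hj))
  · simp only [hj, if_false]

/-- the product `σ`-algebra is generated by the coordinate sets -/
theorem KUNA_gen (I : Type u) : (MeasurableSpace.pi : MeasurableSpace (I → Bool)) =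
    MeasurableSpace.generateFrom (Set.range (fun i : I => {x : I → Bool | x i = true})) := by
  apply le_antisymm
  · refine iSup_le (fun i => ?_)
    rw [← measurable_iff_comap_le]
    refine @measurable_to_bool _ (MeasurableSpace.generateFrom _) _ ?_
    exact MeasurableSpace.measurableSet_generateFrom ⟨i, rfl⟩
  · refine MeasurableSpace.generateFrom_le ?_
    rintro _ ⟨i, rfl⟩
    exact measurable_pi_apply (X := fun _ : I => Bool) i (MeasurableSet.of_discrete (s := {true}))

theorem KUNA_W1 : #W1.{u} = ℵ₁ := by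
  rw [Cardinal.mk_toType, Cardinal.card_ord]

/-- there are few measurable sets -/
theorem KUNA_card (hCH : (𝔠 : Cardinal.{u}) = ℵ₁) :
    #{E : Set (W1.{u} → Bool) | MeasurableSet E} ≤ #W1.{u} := by
  rw [KUNA_W1, ← hCH]
  have h : #(Set.range (fun i : W1.{u} => {x : W1.{u} → Bool | x i = true})) ≤ 𝔠 := by
    refine Cardinal.mk_range_le.trans ?_
    rw [KUNA_W1, hCH]
  have h2 := MeasurableSpace.cardinal_measurableSet_le_continuum h
  rw [← KUNA_gen] at h2
  exact h2

/-- an enumeration of the measurable sets -/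
theorem KUNA_enum (hCH : (𝔠 : Cardinal.{u}) = ℵ₁) :
    ∃ Z : W1.{u} → Set (W1.{u} → Bool), (∀ j, MeasurableSet (Z j)) ∧
      ∀ E, MeasurableSet E → ∃ j, Z j = E := by
  obtain ⟨e⟩ := (Cardinal.le_def _ _).1 (KUNA_card.{u} hCH)
  have hne : Nonempty {E : Set (W1.{u} → Bool) | MeasurableSet E} :=
    ⟨⟨∅, show MeasurableSet (∅ : Set (W1.{u} → Bool)) from MeasurableSet.empty⟩⟩
  refine ⟨fun j => (Function.invFun e j).1, fun j => (Function.invFun e j).2, fun E hE => ?_⟩
  refine ⟨e ⟨E, hE⟩, ?_⟩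
  exact congrArg Subtype.val (Function.leftInverse_invFun e.injective ⟨E, hE⟩)

/-- a colouring all of whose classes are cofinal -/
theorem KUNA_col : ∃ n : W1.{u} → ℕ, ∀ i k, ∃ j, i ≤ j ∧ n j = k := by
  have h1 : #(W1.{u} × ULift.{u} ℕ) = #W1.{u} := by
    rw [Cardinal.mk_prod, Cardinal.lift_id, Cardinal.lift_id, KUNA_W1]
    simp only [Cardinal.mk_uLift, Cardinal.mk_nat, Cardinal.lift_aleph0]
    exact Cardinal.mul_eq_left (Cardinal.aleph0_le_aleph 1) (Cardinal.aleph0_le_aleph 1)
      Cardinal.aleph0_ne_zero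
  obtain ⟨e⟩ := Cardinal.eq.1 h1
  refine ⟨fun j => (e.symm j).2.down, fun i k => ?_⟩
  by_contra hcon
  push Not at hcon
  have h2 : Set.range (fun a : W1.{u} => e (a, ⟨k⟩)) ⊆ {j | j < i} := by
    rintro _ ⟨a, rfl⟩
    by_contra h
    have h3 := hcon (e (a, ⟨k⟩)) (not_lt.1 h)
    simp at h3
  have h3 : (Set.range (fun a : W1.{u} => e (a, ⟨k⟩))).Countable :=
    (KB_Iio_countable i).mono h2
  have h4 : Function.Injective (fun a : W1.{u} => e (a, ⟨k⟩)) := by
    intro a b h
    exact (Prod.mk.inj (e.injective h)).1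
  have h5 := Cardinal.mk_range_eq _ h4
  have h6 := (Cardinal.countable_iff_lt_aleph_one _).1 h3
  rw [h5, KUNA_W1] at h6
  exact lt_irrefl _ h6

/-- the choice of the next set -/
theorem KUNA_step (Z : W1.{u} → Set (W1.{u} → Bool)) (hZ : ∀ j, MeasurableSet (Z j))
    (G : W1.{u} → Set (W1.{u} → Bool)) (hG : KUNA_adm G) (i : W1.{u}) (k : ℕ) :
    ∃ C : Set (W1.{u} → Bool), IsClosed C ∧ KB_dep {j | j < i} C ∧
      coinPi W1.{u} {u | KUNA_prev G i u ∉ C} ≤ ((k : ℝ≥0∞) + 1)⁻¹ ∧
      ∀ j < i, KB_dep {j | j < i} (Z j) → coinPi W1.{u} {u | KUNA_prev G i u ∈ Z j} = 0 →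
        Disjoint C (Z j) := by
  have hm := KUNA_prev_meas hG i
  set m : Measure (W1.{u} → Bool) := (coinPi W1.{u}).map (KUNA_prev G i) with hmdef
  haveI : IsFiniteMeasure m := Measure.isFiniteMeasure_map _ _
  have hc : Countable {j : W1.{u} // j < i} := (KB_Iio_countable i).to_subtype
  set U : Set (W1.{u} → Bool) := ⋃ j : {j : W1.{u} // j < i ∧ KB_dep {j | j < i} (Z j) ∧
    coinPi W1.{u} {u | KUNA_prev G i u ∈ Z j} = 0}, Z j.1 with hU
  haveI : Countable {j : W1.{u} // j < i ∧ KB_dep {j | j < i} (Z j) ∧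
      coinPi W1.{u} {u | KUNA_prev G i u ∈ Z j} = 0} :=
    Function.Injective.countable (f := fun j => (⟨j.1, j.2.1⟩ : {j : W1.{u} // j < i}))
      (fun a b h => Subtype.ext (congrArg (fun x : {j : W1.{u} // j < i} => x.1) h))
  have hUm : MeasurableSet U := MeasurableSet.iUnion (fun j => hZ j.1)
  have hUd : KB_dep {j | j < i} U := by
    intro x y hxy
    simp only [hU, Set.mem_iUnion]
    exact exists_congr (fun j => j.2.2.1 x y hxy)
  have hU0 : m U = 0 := by
    refine measure_iUnion_null (fun j => ?_)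
    rw [hmdef, Measure.map_apply hm (hZ j.1)]
    exact j.2.2.2
  have hUcd : KB_dep {j | j < i} Uᶜ := fun x y hxy => not_congr (hUd x y hxy)
  obtain ⟨C, hCU, hCc, hCd, hC⟩ := KB_inner (KB_Iio_countable i) hUm.compl hUcd m
    (ε := ((k : ℝ≥0∞) + 1)⁻¹) (ENNReal.inv_ne_zero.2 (by simp))
  have hCm := KB_meas_closed (KB_Iio_countable i) hCc hCd
  refine ⟨C, hCc, hCd, ?_, ?_⟩
  · have h1 : coinPi W1.{u} {u | KUNA_prev G i u ∉ C} = m Cᶜ := by
      rw [hmdef, Measure.map_apply hm hCm.compl]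
      rfl
    rw [h1]
    have h2 : Cᶜ ⊆ U ∪ (Uᶜ \ C) := by
      intro x hx
      by_cases h : x ∈ U
      · exact Or.inl h
      · exact Or.inr ⟨h, hx⟩
    calc m Cᶜ ≤ m (U ∪ (Uᶜ \ C)) := measure_mono h2
      _ ≤ m U + m (Uᶜ \ C) := measure_union_le _ _
      _ ≤ 0 + ((k : ℝ≥0∞) + 1)⁻¹ := add_le_add hU0.le hC.le
      _ = _ := zero_add _
  · intro j hj hd h0
    refine Set.disjoint_left.2 (fun x hx hxZ => hCU hx ?_)
    exact Set.mem_iUnion.2 ⟨⟨j, hj, hd, h0⟩, hxZ⟩

/-- KUNA. -/
theorem st_KUNA : ST_KUNA.{u} := by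
  classical
  intro hCH
  obtain ⟨Z, hZm, hZ⟩ := KUNA_enum.{u} hCH
  obtain ⟨n, hn⟩ := KUNA_col.{u}
  -- the step function
  have hstep : ∀ (G : W1.{u} → Set (W1.{u} → Bool)) (i : W1.{u}),
      ∃ C : Set (W1.{u} → Bool), (IsClosed C ∧ KB_dep {j | j < i} C) ∧ (KUNA_adm G →
      coinPi W1.{u} {u | KUNA_prev G i u ∉ C} ≤ ((n i : ℝ≥0∞) + 1)⁻¹ ∧
      ∀ j < i, KB_dep {j | j < i} (Z j) → coinPi W1.{u} {u | KUNA_prev G i u ∈ Z j} = 0 →
        Disjoint C (Z j)) := by
    intro G i
    by_cases hG : KUNA_adm G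
    · obtain ⟨C, h1, h2, h3, h4⟩ := KUNA_step Z hZm G hG i (n i)
      exact ⟨C, ⟨h1, h2⟩, fun _ => ⟨h3, h4⟩⟩
    · exact ⟨Set.univ, ⟨isClosed_univ, fun x y _ => Iff.rfl⟩, fun h => absurd h hG⟩
  choose Φ hΦ hΦ' using hstep
  have wf : WellFounded (fun a b : W1.{u} => a < b) := wellFounded_lt
  set F : W1.{u} → Set (W1.{u} → Bool) := wf.fix
    (fun i ih => Φ (fun j => if h : j < i then ih j h else Set.univ) i) with hFdef
  have hFi : ∀ i, F i = Φ (fun j => if j < i then F j else Set.univ) i := by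
    intro i
    have h1 := wf.fix_eq (C := fun _ => Set (W1.{u} → Bool))
      (fun i ih => Φ (fun j => if h : j < i then ih j h else Set.univ) i) i
    rw [← hFdef] at h1
    rw [h1]
    rfl
  have hadm : KUNA_adm F := by
    refine ⟨fun i => ?_, fun i x y hxy => ?_⟩
    · rw [hFi]
      exact (hΦ _ i).1
    · rw [hFi]
      exact (hΦ _ i).2 x y hxy
  have hadm' : ∀ i, KUNA_adm (fun j => if j < i then F j else Set.univ) := by
    intro i
    refine ⟨fun j => ?_, fun j x y hxy => ?_⟩
    · by_cases h : j < i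
      · simp only [h, if_true]
        exact hadm.1 j
      · simp only [h, if_false]
        exact isClosed_univ
    · by_cases h : j < i
      · simp only [h, if_true]
        exact hadm.2 j x y hxy
      · simp only [h, if_false]
        exact Iff.rfl
  have hprev : ∀ i, KUNA_prev (fun j => if j < i then F j else Set.univ) i = KUNA_prev F i := by
    intro i
    refine KUNA_prev_congr i (fun j hj => ?_)
    simp only [hj, if_true]
  have hpm : ∀ (i : W1.{u}) (u : W1.{u} → Bool) (C : Set (W1.{u} → Bool)),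
      KB_dep {j | j < i} C → (KUNA_prev F i u ∈ C ↔ kx F u ∈ C) := by
    intro i u C hC
    refine hC _ _ (fun j hj => ?_)
    have hj' : j < i := hj
    unfold KUNA_prev
    simp only [hj', if_true]
  refine ⟨F, ⟨hadm.1, hadm.2, ?_, ?_⟩⟩
  · -- large
    intro i ε hε
    obtain ⟨k, hk⟩ := ENNReal.exists_inv_nat_lt hε.ne'
    obtain ⟨j, hij, hj⟩ := hn i k
    refine ⟨j, hij, ?_⟩
    have h1 := (hΦ' (fun j' => if j' < j then F j' else Set.univ) j (hadm' j)).1
    rw [hprev j, ← hFi j, hj] at h1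
    have h2 : {u | kx F u ∉ F j} = {u | KUNA_prev F j u ∉ F j} := by
      ext u
      exact (not_congr (hpm j u (F j) (hadm.2 j))).symm
    rw [h2]
    refine lt_of_le_of_lt h1 (lt_of_le_of_lt ?_ hk)
    exact ENNReal.inv_le_inv.2 (by exact_mod_cast Nat.le_succ k)
  · -- avoid
    intro Z₀ hZc ⟨S, hS, hZd⟩ h0
    obtain ⟨j₀, hj₀⟩ := hZ Z₀ (KB_meas_closed hS hZc hZd)
    -- an upper bound
    have hbd : ∃ γ : W1.{u}, ∀ j ∈ insert j₀ S, j < γ := by
      by_contra hcon
      push Not at hcon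
      have h1 : (Set.univ : Set W1.{u}) ⊆ ⋃ j : (insert j₀ S : Set W1.{u}), {a | a ≤ j.1} := by
        intro γ _
        obtain ⟨j, hj, hγ⟩ := hcon γ
        exact Set.mem_iUnion.2 ⟨⟨j, hj⟩, hγ⟩
      have hc : Countable (insert j₀ S : Set W1.{u}) := (hS.insert j₀).to_subtype
      have h2 : (Set.univ : Set W1.{u}).Countable := by
        refine (Set.countable_iUnion (fun j => ?_)).mono h1
        have h3 : {a : W1.{u} | a ≤ j.1} = {a | a < j.1} ∪ {j.1} := by
          ext a
          exact le_iff_lt_or_eq (a := a) (b := j.1)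
        rw [h3]
        exact (KB_Iio_countable _).union (Set.countable_singleton _)
      have h4 := (Cardinal.countable_iff_lt_aleph_one _).1 h2
      rw [Cardinal.mk_univ, KUNA_W1] at h4
      exact lt_irrefl _ h4
    obtain ⟨γ, hγ⟩ := hbd
    refine ⟨γ, fun i hi => ?_⟩
    have h1 := (hΦ' (fun j' => if j' < i then F j' else Set.univ) i (hadm' i)).2
    rw [hprev i, ← hFi i] at h1
    have hd : KB_dep {j | j < i} (Z j₀) := by
      rw [hj₀]
      exact KB_dep_mono hZd (fun j hj => (hγ j (Set.mem_insert_of_mem _ hj)).trans_le hi)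
    have h2 := h1 j₀ ((hγ j₀ (Set.mem_insert _ _)).trans_le hi) hd (by
      have h3 : {u | KUNA_prev F i u ∈ Z j₀} = {u | kx F u ∈ Z₀} := by
        ext u
        rw [← hj₀]
        exact hpm i u _ hd
      rw [h3]
      exact h0)
    rwa [hj₀] at h2

end DualL1
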