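import Pool.Agent.Helper22.L1F.KBase

/-! KUNS: measures on the compact set which are singular to the given one. -/

namespace DualL1

open MeasureTheory Cardinal
open scoped ENNReal

universe u

theorem KUNS_prev {F : W1.{u} → Set (W1.{u} → Bool)} (hF : KSys F) (u : W1.{u} → Bool)
    (i : W1.{u}) : ((fun j => if j < i then kx F u j else false) ∈ F i) ↔ kx F u ∈ F i := by
  refine hF.dep i _ _ (fun j hj => ?_)
  simp [hj]

theorem KUNS_mem {F : W1.{u} → Set (W1.{u} → Bool)} (hF : KSys F) (u : W1.{u} → Bool) :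
    kx F u ∈ kK F := by
  classical
  intro i hi
  rw [kx_eq] at hi
  have h1 := (Bool.and_eq_true_iff.1 hi).2
  exact (KUNS_prev hF u i).1 (by simpa using h1)

theorem KUNS_closed {F : W1.{u} → Set (W1.{u} → Bool)} (hF : KSys F) : IsClosed (kK F) := by
  have : kK F = ⋂ i, ({x | x i = false} ∪ F i) := by
    ext x
    simp only [kK, Set.mem_setOf_eq, Set.mem_iInter, Set.mem_union]
    refine forall_congr' (fun i => ?_)
    cases h : x i <;> simp
  rw [this]
  refine isClosed_iInter (fun i => IsClosed.union ?_ (hF.closed i))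
  have h1 : IsClosed ({false} : Set Bool) := isClosed_discrete _
  exact h1.preimage (continuous_apply (A := fun _ : W1.{u} => Bool) i)

/-- KUNS. -/
theorem st_KUNS : ST_KUNS.{u} := by
  intro F hF
  have hm : Measurable (kx F) := st_KUNM F hF.closed hF.dep
  have hFm : ∀ i, MeasurableSet (F i) := fun i =>
    KB_meas_closed (KB_Iio_countable i) (hF.closed i) (fun x y hxy => hF.dep i x y hxy)
  refine ⟨KUNS_closed hF, ?_, ?_⟩
  · intro C hC hd
    rw [Measure.map_apply hm (KB_meas_clopen hC)]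
    have : kx F ⁻¹' C = ∅ := by
      ext u
      simp only [Set.mem_preimage, Set.mem_empty_iff_false, iff_false]
      exact fun h => Set.disjoint_left.1 hd h (KUNS_mem hF u)
    rw [this, measure_empty]
  · intro m hprob hcar hsing
    obtain ⟨s, hs, hms, hνs⟩ := hsing
    obtain ⟨D, hD, hdep⟩ := KB_meas_dep hs.compl
    -- closed sets inside `sᶜ`
    have hZ : ∀ n : ℕ, ∃ Z ⊆ sᶜ, IsClosed Z ∧ KB_dep D Z ∧ m (sᶜ \ Z) < ((n : ℝ≥0∞) + 1)⁻¹ := by
      intro n
      exact KB_inner hD hs.compl hdep m (ENNReal.inv_ne_zero.2 (by simp))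
    choose Z hZs hZc hZd hZm using hZ
    have hγ : ∀ n, ∃ γ, ∀ i, γ ≤ i → Disjoint (F i) (Z n) := by
      intro n
      refine hF.avoid (Z n) (hZc n) ⟨D, hD, hZd n⟩ ?_
      have h1 : ((coinPi W1.{u}).map (kx F)) (Z n) = 0 :=
        measure_mono_null (hZs n) hνs
      rw [Measure.map_apply hm (KB_meas_closed hD (hZc n) (hZd n))] at h1
      exact h1
    choose γ hγ using hγ
    -- the countable set
    refine ⟨⋃ n, {j | j < γ n}, Set.countable_iUnion (fun n => KB_Iio_countable _), ?_⟩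
    intro i hi
    simp only [Set.mem_iUnion, Set.mem_setOf_eq, not_exists, not_lt] at hi
    have h1 : ∀ n, m ({x | x i = true} ∩ Z n) = 0 := by
      intro n
      have hcl : IsClosed ({x : W1.{u} → Bool | x i = true} ∩ Z n) := by
        refine IsClosed.inter ?_ (hZc n)
        have h1 : IsClosed ({true} : Set Bool) := isClosed_discrete _
        exact h1.preimage (continuous_apply (A := fun _ : W1.{u} => Bool) i)
      have hsub : {x : W1.{u} → Bool | x i = true} ∩ Z n ⊆ (kK F)ᶜ := by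
        rintro x ⟨hx, hxZ⟩ hxK
        exact Set.disjoint_left.1 (hγ n i (hi n)) (hxK i hx) hxZ
      obtain ⟨C, hC, hZC, hCK⟩ := exists_clopen_of_closed_subset_open hcl
        (KUNS_closed hF).isOpen_compl hsub
      exact measure_mono_null hZC (hcar C hC (Set.disjoint_left.2 (fun x hx hK => hCK hx hK)))
    have h2 : m (⋃ n, Z n)ᶜ = 0 := by
      have h3 : ∀ n : ℕ, m (⋃ n, Z n)ᶜ ≤ ((n : ℝ≥0∞) + 1)⁻¹ := by
        intro n
        have h4 : (⋃ n, Z n)ᶜ ⊆ s ∪ (sᶜ \ Z n) := by
          intro x hx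
          by_cases hxs : x ∈ s
          · exact Or.inl hxs
          · exact Or.inr ⟨hxs, fun h => hx (Set.mem_iUnion.2 ⟨n, h⟩)⟩
        calc m (⋃ n, Z n)ᶜ ≤ m (s ∪ (sᶜ \ Z n)) := measure_mono h4
          _ ≤ m s + m (sᶜ \ Z n) := measure_union_le _ _
          _ ≤ 0 + ((n : ℝ≥0∞) + 1)⁻¹ := add_le_add hms.le (hZm n).le
          _ = _ := zero_add _
      refine le_antisymm ?_ (zero_le)
      have h5 : Filter.Tendsto (fun n : ℕ => ((n : ℝ≥0∞) + 1)⁻¹) Filter.atTop (nhds 0) := by
        have h6 := ENNReal.tendsto_inv_nat_nhds_zero.comp (Filter.tendsto_add_atTop_nat 1)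
        refine h6.congr (fun n => ?_)
        simp
      exact ge_of_tendsto' h5 h3
    have h3 : {x : W1.{u} → Bool | x i = true} ⊆ (⋃ n, {x | x i = true} ∩ Z n) ∪
        (⋃ n, Z n)ᶜ := by
      intro x hx
      by_cases h : x ∈ ⋃ n, Z n
      · obtain ⟨n, hn⟩ := Set.mem_iUnion.1 h
        exact Or.inl (Set.mem_iUnion.2 ⟨n, hx, hn⟩)
      · exact Or.inr h
    refine measure_mono_null h3 ?_
    rw [measure_union_null_iff]
    exact ⟨measure_iUnion_null h1, h2⟩

end DualL1
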