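import Pool.Agent.Helper22.L1F.CARD
import Pool.Agent.Helper2.DualL1.Gen

/-! NEC: from `L1K` to `Cond`. -/

namespace DualL1

open MeasureTheory Cardinal
open scoped ENNReal

universe u v w

/-- NEC. -/
theorem st_NEC (hHOM : ST_HOM.{u}) (hDENS : ST_DENS.{u, v}) (hCOUNT : ST_COUNT.{u, v, w})
    (hEMB : ST_EMB.{u, v}) : ST_NEC.{u, v, w} := by
  intro 𝕜 _ Ω _ μ Y _ _ hiso κ hκ hL hex
  obtain ⟨A₀, hA₀⟩ := hex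
  obtain ⟨𝒟, h𝒟⟩ := hHOM μ
  set I : Type u := κ.out with hI
  have hIκ : #I = κ := Cardinal.mk_out κ
  -- the embedding
  have hK : L1K 𝕜 I Y := by
    refine hL I hIκ ?_
    obtain ⟨e⟩ := hiso
    obtain ⟨T₀, S₀, hT₀, hS₀, hTS⟩ := hEMB 𝕜 μ κ A₀ hκ.le hA₀ I hIκ.le (coinPi I) inferInstance
    refine ⟨(e : Lp 𝕜 1 μ →L[𝕜] (Y →L[𝕜] 𝕜)).comp
      (((extL (𝕜 := 𝕜) (μ := μ) hA₀.1).toContinuousLinearMap).comp T₀),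
      (‖(e.symm : (Y →L[𝕜] 𝕜) →L[𝕜] Lp 𝕜 1 μ)‖ + 1)⁻¹, ?_, ?_⟩
    · positivity
    · intro g
      set a : ℝ := ‖(e.symm : (Y →L[𝕜] 𝕜) →L[𝕜] Lp 𝕜 1 μ)‖ with ha
      have ha0 : 0 ≤ a := by rw [ha]; positivity
      have h1 : ‖g‖ ≤ ‖T₀ g‖ := by
        calc ‖g‖ = ‖S₀ (T₀ g)‖ := by rw [hTS]
          _ ≤ ‖S₀‖ * ‖T₀ g‖ := S₀.le_opNorm _
          _ ≤ 1 * ‖T₀ g‖ := by gcongr
          _ = ‖T₀ g‖ := one_mul _
      set x : Lp 𝕜 1 μ := extL (𝕜 := 𝕜) (μ := μ) hA₀.1 (T₀ g) with hx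
      have h2 : ‖x‖ = ‖T₀ g‖ := (extL (𝕜 := 𝕜) (μ := μ) hA₀.1).norm_map _
      have h3 : ‖x‖ ≤ a * ‖e x‖ := by
        have := (e.symm : (Y →L[𝕜] 𝕜) →L[𝕜] Lp 𝕜 1 μ).le_opNorm (e x)
        simpa using this
      have h4 : ‖g‖ ≤ (a + 1) * ‖e x‖ := by
        nlinarith [norm_nonneg (e x)]
      change (a + 1)⁻¹ * ‖g‖ ≤ ‖e x‖
      rw [inv_mul_le_iff₀ (by positivity)]
      exact h4
  -- the two parts of the family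
  set ℬ : Set (Set Ω) := {A | A ∈ 𝒟 ∧ Thick μ κ A} with hℬ
  set 𝒜 : Set (Set Ω) := {A | A ∈ 𝒟 ∧ ¬ Thick μ κ A} with h𝒜
  have hU : 𝒜 ∪ ℬ = 𝒟 := by
    ext A
    constructor
    · rintro (h | h)
      · exact h.1
      · exact h.1
    · intro h
      by_cases ht : Thick μ κ A
      · exact Or.inr ⟨h, ht⟩
      · exact Or.inl ⟨h, ht⟩
  refine ⟨ℬ, ?_, ?_, fun C hC => hC.2⟩
  · rw [← hIκ]
    refine hCOUNT 𝕜 μ Y 𝒜 ℬ I hiso (by rw [hIκ]; exact hκ) ?_ ?_ ?_ ?_ hK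
    · intro A hA
      rw [hU] at hA
      exact ⟨(CARD_piece h𝒟 hA).1, (CARD_piece h𝒟 hA).2.2⟩
    · rw [hU]
      exact h𝒟.2.1
    · rw [hU]
      exact h𝒟.2.2
    · intro A hA
      have hp := CARD_piece h𝒟 hA.1
      rcases h𝒟.1 A hA.1 with h1 | ⟨κ', hκ', h1⟩
      · obtain ⟨N, d, hN, hd⟩ := hDENS 𝕜 μ A ∅ hp.1 hp.2.2 (fun G hG => absurd hG
          (Set.notMem_empty G)) (CARD_atom_gen h1.1)
        refine ⟨N, d, lt_of_le_of_lt hN ?_, hd⟩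
        rw [Cardinal.mk_emptyCollection, hIκ]
        exact max_lt (Cardinal.aleph0_pos.trans hκ) hκ
      · obtain ⟨𝒢, h𝒢, hc, hg⟩ := h1.2
        obtain ⟨N, d, hN, hd⟩ := hDENS 𝕜 μ A 𝒢 hp.1 hp.2.2 h𝒢 hg
        refine ⟨N, d, lt_of_le_of_lt hN ?_, hd⟩
        rw [hIκ]
        refine max_lt (lt_of_le_of_lt hc ?_) hκ
        by_contra hlt
        exact hA.2 (CARD_thick_mono h1.1 (not_lt.1 hlt))
  · intro A hA B hB hAB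
    exact h𝒟.2.1 hA.1 hB.1 hAB

end DualL1
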