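import Pool.Agent.Helper22.L1F.KUNA

/-! SEPM: measures living on countably many coordinates. -/

namespace DualL1

open MeasureTheory Cardinal
open scoped ENNReal

universe u v

theorem SEPM_compl1_trans {𝕜 : Type*} [RCLike 𝕜] {E F G : Type*} [NormedAddCommGroup E]
    [NormedSpace 𝕜 E] [NormedAddCommGroup F] [NormedSpace 𝕜 F] [NormedAddCommGroup G]
    [NormedSpace 𝕜 G] (h1 : Compl1 𝕜 E F) (h2 : Compl1 𝕜 F G) : Compl1 𝕜 E G := by
  obtain ⟨T, S, hT, hS, hST⟩ := h1
  obtain ⟨T', S', hT', hS', hST'⟩ := h2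
  refine ⟨T'.comp T, S.comp S', ?_, ?_, fun x => ?_⟩
  · calc ‖T'.comp T‖ ≤ ‖T'‖ * ‖T‖ := T'.opNorm_comp_le T
      _ ≤ 1 * 1 := mul_le_mul hT' hT (norm_nonneg _) zero_le_one
      _ = 1 := one_mul 1
  · calc ‖S.comp S'‖ ≤ ‖S‖ * ‖S'‖ := S.opNorm_comp_le S'
      _ ≤ 1 * 1 := mul_le_mul hS hS' (norm_nonneg _) zero_le_one
      _ = 1 := one_mul 1
  · simp [hST, hST']

open Classical in
/-- forget the coordinates outside `S` -/
noncomputable def SEPM_rho {I : Type u} (S : Set I) (x : I → Bool) : I → Bool :=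
  fun i => if i ∈ S then x i else false

/-- the coordinates in `S` generate -/
theorem SEPM_gen {I : Type u} {m : Measure (I → Bool)} {S : Set I}
    (hS : ∀ i ∉ S, m {x | x i = true} = 0) :
    Generates m (Set.range (fun i : S => {x : I → Bool | x i.1 = true})) Set.univ := by
  classical
  set 𝒢 : Set (Set (I → Bool)) := Set.range (fun i : S => {x : I → Bool | x i.1 = true}) with h𝒢
  have hρ : @Measurable _ _ (MeasurableSpace.generateFrom 𝒢) MeasurableSpace.pi (SEPM_rho S) := by
    refine @measurable_pi_lambda _ _ _ (MeasurableSpace.generateFrom 𝒢) _ _ (fun i => ?_)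
    unfold SEPM_rho
    by_cases hi : i ∈ S
    · simp only [hi, if_true]
      refine @measurable_to_bool _ (MeasurableSpace.generateFrom 𝒢) _ ?_
      exact MeasurableSpace.measurableSet_generateFrom ⟨⟨i, hi⟩, rfl⟩
    · simp only [hi, if_false]
      exact @measurable_const _ _ _ (MeasurableSpace.generateFrom 𝒢) _
  let m' : MeasurableSpace (I → Bool) :=
    { MeasurableSet' := fun E => m (symmDiff E (SEPM_rho S ⁻¹' E)) = 0
      measurableSet_empty := by simp
      measurableSet_compl := by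
        intro E hE
        rw [Set.preimage_compl, compl_symmDiff_compl]
        exact hE
      measurableSet_iUnion := by
        intro f hf
        refine measure_mono_null (t := ⋃ n, symmDiff (f n) (SEPM_rho S ⁻¹' (f n))) ?_
          (measure_iUnion_null hf)
        rintro x (⟨h1, h2⟩ | ⟨h1, h2⟩)
        · obtain ⟨n, hn⟩ := Set.mem_iUnion.1 h1
          exact Set.mem_iUnion.2 ⟨n, Or.inl ⟨hn, fun h => h2 (Set.mem_iUnion.2 ⟨n, h⟩)⟩⟩
        · obtain ⟨n, hn⟩ := Set.mem_iUnion.1 h1
          exact Set.mem_iUnion.2 ⟨n, Or.inr ⟨hn, fun h => h2 (Set.mem_iUnion.2 ⟨n, h⟩)⟩⟩ }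
  have hle : (MeasurableSpace.pi : MeasurableSpace (I → Bool)) ≤ m' := by
    refine iSup_le (fun i => ?_)
    rintro _ ⟨B, _, rfl⟩
    change m (symmDiff ((fun x : I → Bool => x i) ⁻¹' B)
      (SEPM_rho S ⁻¹' ((fun x : I → Bool => x i) ⁻¹' B))) = 0
    by_cases hi : i ∈ S
    · have : SEPM_rho S ⁻¹' ((fun x : I → Bool => x i) ⁻¹' B) =
          (fun x : I → Bool => x i) ⁻¹' B := by
        ext x
        simp [SEPM_rho, hi]
      rw [this, symmDiff_self]
      exact measure_empty
    · refine measure_mono_null ?_ (hS i hi)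
      intro x hx
      by_contra h
      have h1 : x i = false := by simpa using h
      have h2 : SEPM_rho S x i = false := by simp [SEPM_rho, hi]
      rcases hx with ⟨h3, h4⟩ | ⟨h3, h4⟩
      · apply h4
        change SEPM_rho S x i ∈ B
        rw [h2, ← h1]
        exact h3
      · apply h4
        change x i ∈ B
        rw [h1, ← h2]
        exact h3
  intro E _ hE
  refine ⟨SEPM_rho S ⁻¹' E, hρ hE, ?_⟩
  rw [Set.inter_univ]
  exact hle E hE

/-- SEPM. -/
theorem st_SEPM (hGEN : ST_GEN.{u, v}) (hEMB : ST_EMB.{u, v}) : ST_SEPM.{u, v} := by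
  intro 𝕜 _ Ω _ μ B I m hB hprob hex
  obtain ⟨S, hS, h0⟩ := hex
  have hgen := SEPM_gen h0
  have hcount : #(Set.range (fun i : S => {x : I → Bool | x i.1 = true})) ≤ #(ULift.{u} ℕ) := by
    haveI : Countable S := hS.to_subtype
    have h1 : (Set.range (fun i : S => {x : I → Bool | x i.1 = true})).Countable :=
      Set.countable_range _
    simpa using h1.le_aleph0
  obtain ⟨ν, hν, h1⟩ := hGEN 𝕜 m Set.univ
    (Set.range (fun i : S => {x : I → Bool | x i.1 = true})) (ULift.{u} ℕ)
    MeasurableSet.univ (by rw [measure_univ]; exact one_pos) (measure_ne_top _ _) (by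
      rintro _ ⟨i, rfl⟩
      exact measurable_pi_apply (X := fun _ : I => Bool) i.1
        (MeasurableSet.of_discrete (s := {true}))) hgen ⟨⟨0⟩⟩ hcount
  rw [Measure.restrict_univ] at h1
  exact SEPM_compl1_trans h1 (hEMB 𝕜 μ ℵ₀ B le_rfl hB (ULift.{u} ℕ) (by simp) ν hν)

end DualL1
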